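import Mathlib
import Pool.Agent.Helper580.Engel.CorD
import Pool.Agent.RealLine.StepCone
set_option autoImplicit false

namespace Pool.Agent.RealLine

open Pool.Agent.Helper639.RO (IsCone)

theorem corD' : CorD := fun φ h n T hT M => Pool.Agent.Helper580.Engel.corD φ h n T hT M

theorem step_cone_full {R : Type} [Group R] (hfg : (⊤ : Subgroup R).FG) (β : MulAut R) (n : ℕ)
    (hE : ∀ x : R, (fun y => y * (β y)⁻¹)^[n] x = 1) (P : Set R) (hP : IsCone P)
    (hβ : ∀ x, x ∈ P ↔ β x ∈ P) :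
    ∃ P' : Set R, IsCone P' ∧ (∀ x, x⁻¹ * β x ∈ P' ∧ (x⁻¹ * β x)⁻¹ ∈ P') ∧
      ∀ M : Subgroup R, M.Normal → (M : Set R) ⊆ P → (M : Set R) ⊆ P' :=
  step_cone corD' hfg β n hE P hP hβ

end Pool.Agent.RealLine
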